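import Mathlib
import Pool.Agent.V1181.Lap
import Pool.Agent.V1181.Lap2

/-!
# A polyharmonic Hardy-Henon equation without distributional solutions

For `m = 2`, `n = 4`, `p = 2`, `sigma = -5` one has `n - 2 m - theta = 1 > 0`, and there is no
non-trivial non-negative distributional solution. The proof tests the equation with the functions
`log (1 + |x| ^ 2) - log (t + |x| ^ 2)`, cut off at infinity.
-/

set_option autoImplicit false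

namespace Pool.Agent.Results.MP_643687_an.NoSolution

open Real Set Filter MeasureTheory Topology InnerProductSpace Laplacian

/-- The polyharmonic operator `(-Δ)^m`. -/
noncomputable def polyLap {n : ℕ} (m : ℕ) (f : EuclideanSpace ℝ (Fin n) → ℝ) :
    EuclideanSpace ℝ (Fin n) → ℝ :=
  (fun g : EuclideanSpace ℝ (Fin n) → ℝ => - Δ g)^[m] f

/-- `u` is a non-negative, not identically zero distributional solution of
`(-Δ)^m u = |x|^σ u^p` in `ℝ^n`. -/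
structure IsDistributionalSolution (m n : ℕ) (p σ : ℝ) (u : EuclideanSpace ℝ (Fin n) → ℝ) :
    Prop where
  nonneg : ∀ x, 0 ≤ u x
  nontrivial : ¬ (u =ᵐ[volume] 0)
  locInt : LocallyIntegrable u
  locInt_rhs : LocallyIntegrable fun x => ‖x‖ ^ σ * u x ^ p
  weak : ∀ φ : EuclideanSpace ℝ (Fin n) → ℝ, ContDiff ℝ (⊤ : ℕ∞) φ → HasCompactSupport φ →
    ∫ x, u x * polyLap m φ x = ∫ x, ‖x‖ ^ σ * u x ^ p * φ x

/-- Functions with four explicit derivatives on a neighbourhood of the half-line. -/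
structure Tower (δ : ℝ) (f0 f1 f2 f3 f4 : ℝ → ℝ) : Prop where
  c0 : ContDiffOn ℝ (⊤ : ℕ∞) f0 (Ioi (-δ))
  c1 : ContDiffOn ℝ (⊤ : ℕ∞) f1 (Ioi (-δ))
  c2 : ContDiffOn ℝ (⊤ : ℕ∞) f2 (Ioi (-δ))
  d0 : ∀ s, -δ < s → HasDerivAt f0 (f1 s) s
  d1 : ∀ s, -δ < s → HasDerivAt f1 (f2 s) s
  d2 : ∀ s, -δ < s → HasDerivAt f2 (f3 s) s
  d3 : ∀ s, -δ < s → HasDerivAt f3 (f4 s) s

theorem Tower.mul {δ : ℝ} {a0 a1 a2 a3 a4 h0 h1 h2 h3 h4 : ℝ → ℝ}
    (A : Tower δ a0 a1 a2 a3 a4) (H : Tower δ h0 h1 h2 h3 h4) :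
    Tower δ (fun s => a0 s * h0 s) (fun s => a1 s * h0 s + a0 s * h1 s)
      (fun s => a2 s * h0 s + 2 * (a1 s * h1 s) + a0 s * h2 s)
      (fun s => a3 s * h0 s + 3 * (a2 s * h1 s) + 3 * (a1 s * h2 s) + a0 s * h3 s)
      (fun s => a4 s * h0 s + 4 * (a3 s * h1 s) + 6 * (a2 s * h2 s) + 4 * (a1 s * h3 s)
        + a0 s * h4 s) where
  c0 := A.c0.mul H.c0
  c1 := (A.c1.mul H.c0).add (A.c0.mul H.c1)
  c2 := ((A.c2.mul H.c0).add (contDiffOn_const.mul (A.c1.mul H.c1))).add (A.c0.mul H.c2)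
  d0 := fun s hs => by
    have := (A.d0 s hs).mul (H.d0 s hs)
    exact this
  d1 := fun s hs => by
    have := ((A.d1 s hs).mul (H.d0 s hs)).add ((A.d0 s hs).mul (H.d1 s hs))
    refine this.congr_deriv ?_
    ring
  d2 := fun s hs => by
    have := (((A.d2 s hs).mul (H.d0 s hs)).add (((A.d1 s hs).mul (H.d1 s hs)).const_mul 2)).add
      ((A.d0 s hs).mul (H.d2 s hs))
    refine this.congr_deriv ?_
    ring
  d3 := fun s hs => by
    have := ((((A.d3 s hs).mul (H.d0 s hs)).add (((A.d2 s hs).mul (H.d1 s hs)).const_mul 3)).add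
      (((A.d1 s hs).mul (H.d2 s hs)).const_mul 3)).add ((A.d0 s hs).mul (H.d3 s hs))
    refine this.congr_deriv ?_
    ring

/-- Bilaplacian in four dimensions of a radial function. -/
theorem Tower.bilap {δ : ℝ} (hδ : 0 < δ) {f0 f1 f2 f3 f4 : ℝ → ℝ}
    (A : Tower δ f0 f1 f2 f3 f4) (x : EuclideanSpace ℝ (Fin 4)) :
    polyLap 2 (fun y : EuclideanSpace ℝ (Fin 4) => f0 (‖y‖ ^ 2)) x
      = 16 * (‖x‖ ^ 2) ^ 2 * f4 (‖x‖ ^ 2) + 96 * ‖x‖ ^ 2 * f3 (‖x‖ ^ 2)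
        + 96 * f2 (‖x‖ ^ 2) := by
  have hpos : ∀ y : EuclideanSpace ℝ (Fin 4), -δ < ‖y‖ ^ 2 := fun y => by
    have := sq_nonneg ‖y‖
    linarith
  have hnhds : ∀ y : EuclideanSpace ℝ (Fin 4), Ioi (-δ) ∈ 𝓝 (‖y‖ ^ 2) := fun y =>
    isOpen_Ioi.mem_nhds (hpos y)
  have e1 : Δ (fun y : EuclideanSpace ℝ (Fin 4) => f0 (‖y‖ ^ 2))
      = fun y => (fun s => 4 * s * f2 s + 8 * f1 s) (‖y‖ ^ 2) := by
    funext y
    rw [Pool.Agent.V1181.lap_radial (F' := f1) (F'' := f2 (‖y‖ ^ 2))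
      ((contDiffOn_infty.1 A.c0 2).contDiffAt (hnhds y))
      (by filter_upwards [hnhds y] with s hs using A.d0 s hs) (A.d1 _ (hpos y))]
    simp only [finrank_euclideanSpace_fin, Nat.cast_ofNat]
    ring
  have e2 : Δ (fun y : EuclideanSpace ℝ (Fin 4) =>
      (fun s => 4 * s * f2 s + 8 * f1 s) (‖y‖ ^ 2)) x
      = 16 * (‖x‖ ^ 2) ^ 2 * f4 (‖x‖ ^ 2) + 96 * ‖x‖ ^ 2 * f3 (‖x‖ ^ 2)
        + 96 * f2 (‖x‖ ^ 2) := by
    have hd : ∀ s, -δ < s → HasDerivAt (fun s => 4 * s * f2 s + 8 * f1 s)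
        (12 * f2 s + 4 * s * f3 s) s := by
      intro s hs
      have h1 := (((hasDerivAt_id s).const_mul 4).mul (A.d2 s hs)).add
        ((A.d1 s hs).const_mul 8)
      refine h1.congr_deriv ?_
      simp
      ring
    have hd' : HasDerivAt (fun s => 12 * f2 s + 4 * s * f3 s)
        (16 * f3 (‖x‖ ^ 2) + 4 * ‖x‖ ^ 2 * f4 (‖x‖ ^ 2)) (‖x‖ ^ 2) := by
      have h1 := ((A.d2 _ (hpos x)).const_mul 12).add
        (((hasDerivAt_id (‖x‖ ^ 2)).const_mul 4).mul (A.d3 _ (hpos x)))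
      refine h1.congr_deriv ?_
      simp
      ring
    have hc : ContDiffOn ℝ (⊤ : ℕ∞) (fun s => 4 * s * f2 s + 8 * f1 s) (Ioi (-δ)) :=
      ((contDiffOn_const.mul contDiffOn_id).mul A.c2).add (contDiffOn_const.mul A.c1)
    rw [Pool.Agent.V1181.lap_radial (F' := fun s => 12 * f2 s + 4 * s * f3 s)
      (F'' := 16 * f3 (‖x‖ ^ 2) + 4 * ‖x‖ ^ 2 * f4 (‖x‖ ^ 2))
      ((contDiffOn_infty.1 hc 2).contDiffAt (hnhds x))
      (by filter_upwards [hnhds x] with s hs using hd s hs) hd']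
    simp only [finrank_euclideanSpace_fin, Nat.cast_ofNat]
    ring
  simp only [polyLap, Function.iterate_succ, Function.iterate_zero, Function.comp_apply, id_eq]
  rw [e1, laplacian_neg, neg_neg, e2]

/-- A smooth bump on the line. -/
noncomputable def bump : ContDiffBump (0 : ℝ) := ⟨1, 2, one_pos, one_lt_two⟩

/-- The derivatives of the bump. -/
noncomputable def bD (k : ℕ) : ℝ → ℝ := iteratedDeriv k bump

theorem bD_contDiff (k : ℕ) : ContDiff ℝ (⊤ : ℕ∞) (bD k) := by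
  have h : ContDiff ℝ (⊤ : ℕ∞) (bump : ℝ → ℝ) := bump.contDiff
  unfold bD
  rw [contDiff_infty]
  intro n
  rw [iteratedDeriv_eq_iterate]
  exact (contDiff_infty.1 (ContDiff.iterate_deriv k h)) n

theorem bD_hasDerivAt (k : ℕ) (s : ℝ) : HasDerivAt (bD k) (bD (k + 1) s) s := by
  have h := ((contDiff_infty.1 (bD_contDiff k) 1).differentiable (by simp) s).hasDerivAt
  have e : bD (k + 1) = deriv (bD k) := iteratedDeriv_succ
  rw [e]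
  exact h

theorem bD_cont (k : ℕ) : Continuous (bD k) := (bD_contDiff k).continuous

/-- The derivatives of the eighth power of the bump. -/
noncomputable def H0 (s : ℝ) : ℝ := bD 0 s ^ 8
noncomputable def H1 (s : ℝ) : ℝ := 8 * bD 0 s ^ 7 * bD 1 s
noncomputable def H2 (s : ℝ) : ℝ := 56 * bD 0 s ^ 6 * bD 1 s ^ 2 + 8 * bD 0 s ^ 7 * bD 2 s
noncomputable def H3 (s : ℝ) : ℝ :=
  336 * bD 0 s ^ 5 * bD 1 s ^ 3 + 168 * bD 0 s ^ 6 * bD 1 s * bD 2 s + 8 * bD 0 s ^ 7 * bD 3 s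
noncomputable def H4 (s : ℝ) : ℝ :=
  1680 * bD 0 s ^ 4 * bD 1 s ^ 4 + 2016 * bD 0 s ^ 5 * bD 1 s ^ 2 * bD 2 s
    + 168 * bD 0 s ^ 6 * bD 2 s ^ 2 + 224 * bD 0 s ^ 6 * bD 1 s * bD 3 s
    + 8 * bD 0 s ^ 7 * bD 4 s

theorem H_contDiff0 : ContDiff ℝ (⊤ : ℕ∞) H0 := (bD_contDiff 0).pow 8

theorem H_contDiff1 : ContDiff ℝ (⊤ : ℕ∞) H1 :=
  (contDiff_const.mul ((bD_contDiff 0).pow 7)).mul (bD_contDiff 1)

theorem H_contDiff2 : ContDiff ℝ (⊤ : ℕ∞) H2 :=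
  ((contDiff_const.mul ((bD_contDiff 0).pow 6)).mul ((bD_contDiff 1).pow 2)).add
    ((contDiff_const.mul ((bD_contDiff 0).pow 7)).mul (bD_contDiff 2))

theorem H_d0 (s : ℝ) : HasDerivAt H0 (H1 s) s := by
  have h := (bD_hasDerivAt 0 s).pow 8
  refine h.congr_deriv ?_
  simp [H1]

theorem H_d1 (s : ℝ) : HasDerivAt H1 (H2 s) s := by
  have h := (((bD_hasDerivAt 0 s).pow 7).const_mul 8).mul (bD_hasDerivAt 1 s)
  refine h.congr_deriv ?_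
  simp [H2]
  ring

theorem H_d2 (s : ℝ) : HasDerivAt H2 (H3 s) s := by
  have h := ((((bD_hasDerivAt 0 s).pow 6).const_mul 56).mul ((bD_hasDerivAt 1 s).pow 2)).add
    ((((bD_hasDerivAt 0 s).pow 7).const_mul 8).mul (bD_hasDerivAt 2 s))
  refine h.congr_deriv ?_
  simp [H3]
  ring

theorem H_d3 (s : ℝ) : HasDerivAt H3 (H4 s) s := by
  have h := (((((bD_hasDerivAt 0 s).pow 5).const_mul 336).mul ((bD_hasDerivAt 1 s).pow 3)).add
    (((((bD_hasDerivAt 0 s).pow 6).const_mul 168).mul (bD_hasDerivAt 1 s)).mul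
      (bD_hasDerivAt 2 s))).add
    ((((bD_hasDerivAt 0 s).pow 7).const_mul 8).mul (bD_hasDerivAt 3 s))
  refine h.congr_deriv ?_
  simp [H4]
  ring

theorem b_nonneg (s : ℝ) : 0 ≤ bD 0 s := by
  simpa [bD] using bump.nonneg

theorem b_le_one (s : ℝ) : bD 0 s ≤ 1 := by
  simpa [bD] using bump.le_one

theorem b_one {s : ℝ} (h : |s| ≤ 1) : bD 0 s = 1 := by
  simpa [bD] using bump.one_of_mem_closedBall (x := s) (by simpa [bump] using h)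

theorem b_zero {s : ℝ} (h : 2 ≤ |s|) : bD 0 s = 0 := by
  simpa [bD] using bump.zero_of_le_dist (x := s) (by simpa [bump] using h)

/-- Each derivative of the eighth power is bounded by a constant times the fourth power. -/
theorem H_bound : ∃ C : ℝ, 1 ≤ C ∧ ∀ s, |H0 s| ≤ C * bD 0 s ^ 4 ∧ |H1 s| ≤ C * bD 0 s ^ 4 ∧
    |H2 s| ≤ C * bD 0 s ^ 4 ∧ |H3 s| ≤ C * bD 0 s ^ 4 ∧ |H4 s| ≤ C * bD 0 s ^ 4 := by
  have key : ∀ (Q : ℝ → ℝ), Continuous Q → ∃ C : ℝ, 1 ≤ C ∧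
      ∀ s, |bD 0 s ^ 4 * Q s| ≤ C * bD 0 s ^ 4 := by
    intro Q hQ
    obtain ⟨C, hC⟩ := (isCompact_Icc (a := (-2 : ℝ)) (b := 2)).exists_bound_of_continuousOn
      hQ.continuousOn
    refine ⟨max C 1, le_max_right _ _, fun s => ?_⟩
    by_cases hs : 2 ≤ |s|
    · simp [b_zero hs]
    · have hs' : s ∈ Icc (-2 : ℝ) 2 := by
        rw [not_le, abs_lt] at hs
        exact ⟨hs.1.le, hs.2.le⟩
      have h1 := hC s hs'
      rw [Real.norm_eq_abs] at h1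
      rw [abs_mul, abs_of_nonneg (pow_nonneg (b_nonneg s) 4), mul_comm]
      exact mul_le_mul_of_nonneg_right (h1.trans (le_max_left _ _)) (pow_nonneg (b_nonneg s) 4)
  have b0 := bD_cont 0
  have b1 := bD_cont 1
  have b2 := bD_cont 2
  have b3 := bD_cont 3
  have b4 := bD_cont 4
  obtain ⟨C0, h0, k0⟩ := key (fun s => bD 0 s ^ 4) (by fun_prop)
  obtain ⟨C1, h1, k1⟩ := key (fun s => 8 * bD 0 s ^ 3 * bD 1 s) (by fun_prop)
  obtain ⟨C2, h2, k2⟩ := key (fun s => 56 * bD 0 s ^ 2 * bD 1 s ^ 2 + 8 * bD 0 s ^ 3 * bD 2 s)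
    (by fun_prop)
  obtain ⟨C3, h3, k3⟩ := key (fun s => 336 * bD 0 s * bD 1 s ^ 3
    + 168 * bD 0 s ^ 2 * bD 1 s * bD 2 s + 8 * bD 0 s ^ 3 * bD 3 s) (by fun_prop)
  obtain ⟨C4, h4, k4⟩ := key (fun s => 1680 * bD 1 s ^ 4 + 2016 * bD 0 s * bD 1 s ^ 2 * bD 2 s
    + 168 * bD 0 s ^ 2 * bD 2 s ^ 2 + 224 * bD 0 s ^ 2 * bD 1 s * bD 3 s
    + 8 * bD 0 s ^ 3 * bD 4 s) (by fun_prop)
  refine ⟨C0 + C1 + C2 + C3 + C4, by linarith, fun s => ?_⟩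
  have hb := pow_nonneg (b_nonneg s) 4
  have mono : ∀ C : ℝ, C ≤ C0 + C1 + C2 + C3 + C4 →
      C * bD 0 s ^ 4 ≤ (C0 + C1 + C2 + C3 + C4) * bD 0 s ^ 4 :=
    fun C hC => mul_le_mul_of_nonneg_right hC hb
  refine ⟨?_, ?_, ?_, ?_, ?_⟩
  · refine le_trans (le_of_eq ?_) ((k0 s).trans (mono _ (by linarith)))
    congr 1
    unfold H0
    ring
  · refine le_trans (le_of_eq ?_) ((k1 s).trans (mono _ (by linarith)))
    congr 1
    unfold H1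
    ring
  · refine le_trans (le_of_eq ?_) ((k2 s).trans (mono _ (by linarith)))
    congr 1
    unfold H2
    ring
  · refine le_trans (le_of_eq ?_) ((k3 s).trans (mono _ (by linarith)))
    congr 1
    unfold H3
    ring
  · refine le_trans (le_of_eq ?_) ((k4 s).trans (mono _ (by linarith)))
    congr 1
    unfold H4
    ring

/-- The scaled cut-off tower. -/
theorem tower_H (l : ℝ) (δ : ℝ) :
    Tower δ (fun s => H0 (s / l)) (fun s => l⁻¹ * H1 (s / l)) (fun s => l⁻¹ ^ 2 * H2 (s / l))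
      (fun s => l⁻¹ ^ 3 * H3 (s / l)) (fun s => l⁻¹ ^ 4 * H4 (s / l)) := by
  have hc : ContDiff ℝ (⊤ : ℕ∞) (fun s : ℝ => s / l) := contDiff_id.div_const l
  have hd : ∀ s : ℝ, HasDerivAt (fun s : ℝ => s / l) (1 / l) s := fun s =>
    (hasDerivAt_id s).div_const l
  constructor
  · exact (H_contDiff0.comp hc).contDiffOn
  · exact (contDiff_const.mul (H_contDiff1.comp hc)).contDiffOn
  · exact (contDiff_const.mul (H_contDiff2.comp hc)).contDiffOn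
  · intro s _
    refine (HasDerivAt.comp (h₂ := H0) s (H_d0 (s / l)) (hd s)).congr_deriv ?_
    ring
  · intro s _
    refine ((HasDerivAt.comp (h₂ := H1) s (H_d1 (s / l)) (hd s)).const_mul l⁻¹).congr_deriv ?_
    ring
  · intro s _
    refine ((HasDerivAt.comp (h₂ := H2) s (H_d2 (s / l)) (hd s)).const_mul
      (l⁻¹ ^ 2)).congr_deriv ?_
    ring
  · intro s _
    refine ((HasDerivAt.comp (h₂ := H3) s (H_d3 (s / l)) (hd s)).const_mul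
      (l⁻¹ ^ 3)).congr_deriv ?_
    ring

theorem Hl_bound {C : ℝ} (hC : ∀ s, |H0 s| ≤ C * bD 0 s ^ 4 ∧ |H1 s| ≤ C * bD 0 s ^ 4 ∧
    |H2 s| ≤ C * bD 0 s ^ 4 ∧ |H3 s| ≤ C * bD 0 s ^ 4 ∧ |H4 s| ≤ C * bD 0 s ^ 4)
    (hC1 : 1 ≤ C) {l s : ℝ} (hl : 1 ≤ l) (hs : 0 ≤ s) :
    |H0 (s / l)| ≤ 81 * C * bD 0 (s / l) ^ 4 ∧
    |l⁻¹ * H1 (s / l)| ≤ 81 * C * bD 0 (s / l) ^ 4 * (1 + s)⁻¹ ∧
    |l⁻¹ ^ 2 * H2 (s / l)| ≤ 81 * C * bD 0 (s / l) ^ 4 * (1 + s)⁻¹ ^ 2 ∧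
    |l⁻¹ ^ 3 * H3 (s / l)| ≤ 81 * C * bD 0 (s / l) ^ 4 * (1 + s)⁻¹ ^ 3 ∧
    |l⁻¹ ^ 4 * H4 (s / l)| ≤ 81 * C * bD 0 (s / l) ^ 4 * (1 + s)⁻¹ ^ 4 := by
  obtain ⟨h0, h1, h2, h3, h4⟩ := hC (s / l)
  by_cases hb : bD 0 (s / l) = 0
  · rw [hb] at h0 h1 h2 h3 h4
    have e0 : H0 (s / l) = 0 := abs_nonpos_iff.1 (by simpa using h0)
    have e1 : H1 (s / l) = 0 := abs_nonpos_iff.1 (by simpa using h1)
    have e2 : H2 (s / l) = 0 := abs_nonpos_iff.1 (by simpa using h2)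
    have e3 : H3 (s / l) = 0 := abs_nonpos_iff.1 (by simpa using h3)
    have e4 : H4 (s / l) = 0 := abs_nonpos_iff.1 (by simpa using h4)
    simp [hb, e0, e1, e2, e3, e4]
  · have hl0 : 0 < l := by linarith
    have hsl : s / l < 2 := by
      by_contra h
      rw [not_lt] at h
      exact hb (b_zero (h.trans (le_abs_self _)))
    have hs2 : s < 2 * l := by
      rwa [div_lt_iff₀ hl0] at hsl
    set q := (1 + s)⁻¹ with hq
    have hqpos : 0 < q := inv_pos.2 (by linarith)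
    have hlq : l⁻¹ ≤ 3 * q := by
      rw [hq, inv_eq_one_div, div_le_iff₀ hl0]
      have : 3 * (1 + s)⁻¹ * l = (3 * l) / (1 + s) := by ring
      rw [this, le_div_iff₀ (by linarith)]
      linarith
    have hli : 0 ≤ l⁻¹ := (inv_pos.2 hl0).le
    set B := bD 0 (s / l) ^ 4 with hB
    have hB0 : 0 ≤ B := pow_nonneg (b_nonneg _) 4
    have hCB : 0 ≤ C * B := mul_nonneg (by linarith) hB0
    have gen : ∀ (k : ℕ) (y c : ℝ), |y| ≤ C * B → 3 ^ k ≤ c →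
        |l⁻¹ ^ k * y| ≤ c * C * B * q ^ k := by
      intro k y c hy hk
      rw [abs_mul, abs_of_nonneg (pow_nonneg hli k)]
      calc l⁻¹ ^ k * |y| ≤ (3 * q) ^ k * (C * B) := by gcongr
        _ = 3 ^ k * (C * B * q ^ k) := by rw [mul_pow]; ring
        _ ≤ c * (C * B * q ^ k) := by gcongr
        _ = c * C * B * q ^ k := by ring
    refine ⟨?_, ?_, ?_, ?_, ?_⟩
    · have := gen 0 _ 81 h0 (by norm_num)
      simpa using this
    · have := gen 1 _ 81 h1 (by norm_num)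
      simpa using this
    · exact gen 2 _ 81 h2 (by norm_num)
    · exact gen 3 _ 81 h3 (by norm_num)
    · exact gen 4 _ 81 h4 (by norm_num)

/-- The radial expression of the bilaplacian in dimension four. -/
def D2 (f2 f3 f4 : ℝ → ℝ) (s : ℝ) : ℝ := 16 * s ^ 2 * f4 s + 96 * s * f3 s + 96 * f2 s

theorem mulb {x y X Y : ℝ} (hx : |x| ≤ X) (hy : |y| ≤ Y) : |x * y| ≤ X * Y := by
  rw [abs_mul]
  exact mul_le_mul hx hy (abs_nonneg _) ((abs_nonneg _).trans hx)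

theorem D2_bound {K C B q s : ℝ} {a0 a1 a2 a3 a4 h0 h1 h2 h3 h4 : ℝ} (hs : 0 ≤ s)
    (hq : q = (1 + s)⁻¹)
    (ha0 : |a0| ≤ K * q) (ha1 : |a1| ≤ K * q ^ 2) (ha2 : |a2| ≤ K * q ^ 3)
    (ha3 : |a3| ≤ K * q ^ 4) (ha4 : |a4| ≤ K * q ^ 5)
    (hh0 : |h0| ≤ C * B) (hh1 : |h1| ≤ C * B * q) (hh2 : |h2| ≤ C * B * q ^ 2)
    (hh3 : |h3| ≤ C * B * q ^ 3) (hh4 : |h4| ≤ C * B * q ^ 4) :
    |16 * s ^ 2 * (a4 * h0 + 4 * (a3 * h1) + 6 * (a2 * h2) + 4 * (a1 * h3) + a0 * h4)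
      + 96 * s * (a3 * h0 + 3 * (a2 * h1) + 3 * (a1 * h2) + a0 * h3)
      + 96 * (a2 * h0 + 2 * (a1 * h1) + a0 * h2)| ≤ 1408 * K * (C * B) * q ^ 3 := by
  have hq0 : 0 < q := by rw [hq]; exact inv_pos.2 (by linarith)
  have hsq : s * q ≤ 1 := by
    rw [hq, mul_inv_le_iff₀ (by linarith)]
    linarith
  have hsq0 : 0 ≤ s * q := mul_nonneg hs hq0.le
  set Z := K * (C * B) with hZ
  have hZ0 : 0 ≤ Z := by
    have h1 : 0 ≤ K * q := (abs_nonneg _).trans ha0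
    have h2 : 0 ≤ K := nonneg_of_mul_nonneg_left h1 hq0
    exact mul_nonneg h2 ((abs_nonneg _).trans hh0)
  have p1 : |a4 * h0| ≤ Z * q ^ 5 := (mulb ha4 hh0).trans_eq (by rw [hZ]; ring)
  have p2 : |a3 * h1| ≤ Z * q ^ 5 := (mulb ha3 hh1).trans_eq (by rw [hZ]; ring)
  have p3 : |a2 * h2| ≤ Z * q ^ 5 := (mulb ha2 hh2).trans_eq (by rw [hZ]; ring)
  have p4 : |a1 * h3| ≤ Z * q ^ 5 := (mulb ha1 hh3).trans_eq (by rw [hZ]; ring)
  have p5 : |a0 * h4| ≤ Z * q ^ 5 := (mulb ha0 hh4).trans_eq (by rw [hZ]; ring)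
  have r1 : |a3 * h0| ≤ Z * q ^ 4 := (mulb ha3 hh0).trans_eq (by rw [hZ]; ring)
  have r2 : |a2 * h1| ≤ Z * q ^ 4 := (mulb ha2 hh1).trans_eq (by rw [hZ]; ring)
  have r3 : |a1 * h2| ≤ Z * q ^ 4 := (mulb ha1 hh2).trans_eq (by rw [hZ]; ring)
  have r4 : |a0 * h3| ≤ Z * q ^ 4 := (mulb ha0 hh3).trans_eq (by rw [hZ]; ring)
  have t1 : |a2 * h0| ≤ Z * q ^ 3 := (mulb ha2 hh0).trans_eq (by rw [hZ]; ring)
  have t2 : |a1 * h1| ≤ Z * q ^ 3 := (mulb ha1 hh1).trans_eq (by rw [hZ]; ring)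
  have t3 : |a0 * h2| ≤ Z * q ^ 3 := (mulb ha0 hh2).trans_eq (by rw [hZ]; ring)
  have P : |a4 * h0 + 4 * (a3 * h1) + 6 * (a2 * h2) + 4 * (a1 * h3) + a0 * h4|
      ≤ 16 * (Z * q ^ 5) := by
    obtain ⟨u1, v1⟩ := abs_le.1 p1
    obtain ⟨u2, v2⟩ := abs_le.1 p2
    obtain ⟨u3, v3⟩ := abs_le.1 p3
    obtain ⟨u4, v4⟩ := abs_le.1 p4
    obtain ⟨u5, v5⟩ := abs_le.1 p5
    rw [abs_le]
    constructor <;> linarith
  have R : |a3 * h0 + 3 * (a2 * h1) + 3 * (a1 * h2) + a0 * h3| ≤ 8 * (Z * q ^ 4) := by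
    obtain ⟨u1, v1⟩ := abs_le.1 r1
    obtain ⟨u2, v2⟩ := abs_le.1 r2
    obtain ⟨u3, v3⟩ := abs_le.1 r3
    obtain ⟨u4, v4⟩ := abs_le.1 r4
    rw [abs_le]
    constructor <;> linarith
  have T : |a2 * h0 + 2 * (a1 * h1) + a0 * h2| ≤ 4 * (Z * q ^ 3) := by
    obtain ⟨u1, v1⟩ := abs_le.1 t1
    obtain ⟨u2, v2⟩ := abs_le.1 t2
    obtain ⟨u3, v3⟩ := abs_le.1 t3
    rw [abs_le]
    constructor <;> linarith
  have hZq : 0 ≤ Z * q ^ 3 := mul_nonneg hZ0 (pow_nonneg hq0.le 3)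
  have hsq2 : (s * q) ^ 2 ≤ 1 := pow_le_one₀ hsq0 hsq
  calc _ ≤ |16 * s ^ 2 * (a4 * h0 + 4 * (a3 * h1) + 6 * (a2 * h2) + 4 * (a1 * h3) + a0 * h4)|
      + |96 * s * (a3 * h0 + 3 * (a2 * h1) + 3 * (a1 * h2) + a0 * h3)|
      + |96 * (a2 * h0 + 2 * (a1 * h1) + a0 * h2)| := abs_add_three _ _ _
    _ ≤ 16 * s ^ 2 * (16 * (Z * q ^ 5)) + 96 * s * (8 * (Z * q ^ 4))
        + 96 * (4 * (Z * q ^ 3)) := by
        have e : ∀ c y : ℝ, 0 ≤ c → |c * y| = c * |y| := fun c y hc => by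
          rw [abs_mul, abs_of_nonneg hc]
        rw [e _ _ (by positivity : 0 ≤ 16 * s ^ 2), e _ _ (by positivity : 0 ≤ 96 * s),
          e _ _ (by norm_num : (0 : ℝ) ≤ 96)]
        gcongr
    _ = 256 * (s * q) ^ 2 * (Z * q ^ 3) + 768 * (s * q) * (Z * q ^ 3)
        + 384 * (Z * q ^ 3) := by ring
    _ ≤ 256 * 1 * (Z * q ^ 3) + 768 * 1 * (Z * q ^ 3) + 384 * (Z * q ^ 3) := by gcongr
    _ = 1408 * K * (C * B) * q ^ 3 := by rw [hZ]; ring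

theorem young {a b c : ℝ} (ha : 0 ≤ a) (hb : 0 ≤ b) (h : c ^ 2 ≤ a * b) : 2 * c ≤ a + b := by
  have h1 : (2 * c) ^ 2 ≤ (a + b) ^ 2 := by nlinarith [sq_nonneg (a - b)]
  exact abs_le_of_sq_le_sq' h1 (by linarith) |>.2

/-- The tower of `1 / (1 + s)`. -/
theorem tower_W : Tower 1 (fun s => (1 + s)⁻¹) (fun s => - (1 + s)⁻¹ ^ 2)
    (fun s => 2 * (1 + s)⁻¹ ^ 3) (fun s => - 6 * (1 + s)⁻¹ ^ 4)
    (fun s => 24 * (1 + s)⁻¹ ^ 5) := by
  have hc : ContDiffOn ℝ (⊤ : ℕ∞) (fun s : ℝ => (1 + s)⁻¹) (Ioi (-1)) := by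
    refine ContDiffOn.inv (contDiffOn_const.add contDiffOn_id) ?_
    intro s hs
    have : -1 < s := hs
    linarith
  have hd : ∀ s : ℝ, -1 < s → HasDerivAt (fun s : ℝ => (1 + s)⁻¹) (-(1 + s)⁻¹ ^ 2) s := by
    intro s hs
    have h1 : HasDerivAt (fun s : ℝ => 1 + s) 1 s := (hasDerivAt_id s).const_add 1
    refine (h1.inv (by linarith)).congr_deriv ?_
    simp [div_eq_mul_inv]
  have hp : ∀ (k : ℕ) (s : ℝ), -1 < s → HasDerivAt (fun s : ℝ => (1 + s)⁻¹ ^ (k + 1))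
      (-((k + 1 : ℕ) : ℝ) * (1 + s)⁻¹ ^ (k + 2)) s := by
    intro k s hs
    refine ((hd s hs).pow (k + 1)).congr_deriv ?_
    rw [Nat.add_sub_cancel]
    generalize (1 + s)⁻¹ = y
    ring
  constructor
  · exact hc
  · exact (hc.pow 2).neg
  · exact contDiffOn_const.mul (hc.pow 3)
  · exact hd
  · intro s hs
    refine (hp 1 s hs).neg.congr_deriv ?_
    norm_num
  · intro s hs
    refine ((hp 2 s hs).const_mul 2).congr_deriv ?_
    norm_num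
    ring
  · intro s hs
    refine ((hp 3 s hs).const_mul (-6)).congr_deriv ?_
    norm_num
    ring

/-- The tower of `log (t + s)`. -/
theorem tower_log {t δ : ℝ} (ht : δ ≤ t) : Tower δ (fun s => log (t + s))
    (fun s => (t + s)⁻¹) (fun s => - (t + s)⁻¹ ^ 2)
    (fun s => 2 * (t + s)⁻¹ ^ 3) (fun s => - 6 * (t + s)⁻¹ ^ 4) := by
  have hc : ContDiffOn ℝ (⊤ : ℕ∞) (fun s : ℝ => (t + s)⁻¹) (Ioi (-δ)) := by
    refine ContDiffOn.inv (contDiffOn_const.add contDiffOn_id) ?_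
    intro s hs
    have : -δ < s := hs
    linarith
  have hd : ∀ s : ℝ, -δ < s → HasDerivAt (fun s : ℝ => (t + s)⁻¹) (-(t + s)⁻¹ ^ 2) s := by
    intro s hs
    have h1 : HasDerivAt (fun s : ℝ => t + s) 1 s := (hasDerivAt_id s).const_add t
    refine (h1.inv (by linarith)).congr_deriv ?_
    simp [div_eq_mul_inv]
  have hp : ∀ (k : ℕ) (s : ℝ), -δ < s → HasDerivAt (fun s : ℝ => (t + s)⁻¹ ^ (k + 1))
      (-((k + 1 : ℕ) : ℝ) * (t + s)⁻¹ ^ (k + 2)) s := by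
    intro k s hs
    refine ((hd s hs).pow (k + 1)).congr_deriv ?_
    rw [Nat.add_sub_cancel]
    generalize (t + s)⁻¹ = y
    ring
  constructor
  · refine ContDiffOn.log (contDiffOn_const.add contDiffOn_id) ?_
    intro s hs
    have : -δ < s := hs
    linarith
  · exact hc
  · exact (hc.pow 2).neg
  · intro s hs
    have h1 : HasDerivAt (fun s : ℝ => t + s) 1 s := (hasDerivAt_id s).const_add t
    refine (h1.log (by linarith)).congr_deriv ?_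
    simp
  · exact hd
  · intro s hs
    refine (hp 1 s hs).neg.congr_deriv ?_
    norm_num
  · intro s hs
    refine ((hp 2 s hs).const_mul 2).congr_deriv ?_
    norm_num
    ring

theorem Tower.sub {δ : ℝ} {a0 a1 a2 a3 a4 h0 h1 h2 h3 h4 : ℝ → ℝ}
    (A : Tower δ a0 a1 a2 a3 a4) (H : Tower δ h0 h1 h2 h3 h4) :
    Tower δ (fun s => a0 s - h0 s) (fun s => a1 s - h1 s) (fun s => a2 s - h2 s)
      (fun s => a3 s - h3 s) (fun s => a4 s - h4 s) where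
  c0 := A.c0.sub H.c0
  c1 := A.c1.sub H.c1
  c2 := A.c2.sub H.c2
  d0 := fun s hs => (A.d0 s hs).sub (H.d0 s hs)
  d1 := fun s hs => (A.d1 s hs).sub (H.d1 s hs)
  d2 := fun s hs => (A.d2 s hs).sub (H.d2 s hs)
  d3 := fun s hs => (A.d3 s hs).sub (H.d3 s hs)

/-- Bounds on the difference of logarithms and its derivatives. -/
theorem log_bounds {t : ℝ} (ht : 0 < t) (ht1 : t < 1) {s : ℝ} (hs : 0 ≤ s) :
    0 ≤ log (1 + s) - log (t + s) ∧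
    |log (1 + s) - log (t + s)| ≤ 24 / t ^ 4 * (1 + s)⁻¹ ∧
    |(1 + s)⁻¹ - (t + s)⁻¹| ≤ 24 / t ^ 4 * (1 + s)⁻¹ ^ 2 ∧
    |(- (1 + s)⁻¹ ^ 2) - (- (t + s)⁻¹ ^ 2)| ≤ 24 / t ^ 4 * (1 + s)⁻¹ ^ 3 ∧
    |2 * (1 + s)⁻¹ ^ 3 - 2 * (t + s)⁻¹ ^ 3| ≤ 24 / t ^ 4 * (1 + s)⁻¹ ^ 4 ∧
    |(- 6 * (1 + s)⁻¹ ^ 4) - (- 6 * (t + s)⁻¹ ^ 4)| ≤ 24 / t ^ 4 * (1 + s)⁻¹ ^ 5 := by
  have h1s : 0 < 1 + s := by linarith
  have hts : 0 < t + s := by linarith
  set y := (1 + s)⁻¹ with hy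
  set x := (t + s)⁻¹ with hx
  have hy0 : 0 < y := inv_pos.2 h1s
  have hx0 : 0 < x := inv_pos.2 hts
  have hyx : y ≤ x := by
    rw [hy, hx]
    exact inv_anti₀ hts (by linarith)
  set T := t⁻¹ with hT
  have hT1 : 1 ≤ T := (one_le_inv₀ ht).2 ht1.le
  have hxy : x ≤ T * y := by
    rw [hy, hx, hT, ← mul_inv]
    exact inv_anti₀ (mul_pos ht h1s) (by nlinarith)
  have hsub : x - y ≤ x * y := by
    have : x - y = (1 - t) * (x * y) := by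
      rw [hy, hx]
      field_simp
      ring
    rw [this]
    nlinarith [mul_pos hx0 hy0]
  have hlog0 : 0 ≤ log (1 + s) - log (t + s) :=
    sub_nonneg.2 (Real.log_le_log hts (by linarith))
  have hlog1 : log (1 + s) - log (t + s) ≤ x := by
    rw [← Real.log_div h1s.ne' hts.ne']
    refine (Real.log_le_sub_one_of_pos (div_pos h1s hts)).trans ?_
    have : (1 + s) / (t + s) - 1 = (1 - t) * x := by
      rw [hx]
      field_simp
      ring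
    rw [this]
    nlinarith
  have hK : 24 / t ^ 4 = 24 * T ^ 4 := by rw [hT, inv_pow]; rfl
  rw [hK]
  have hT4 : 1 ≤ T ^ 4 := one_le_pow₀ hT1
  have hTT : T ≤ T ^ 4 := le_self_pow₀ hT1 (by norm_num)
  have hxnn := hx0.le
  have hynn := hy0.le
  have hTn : 0 ≤ T := by linarith
  refine ⟨hlog0, ?_, ?_, ?_, ?_, ?_⟩
  · rw [abs_of_nonneg hlog0]
    calc _ ≤ x := hlog1
      _ ≤ T * y := hxy
      _ ≤ 24 * T ^ 4 * y := by
        have : T ≤ 24 * T ^ 4 := by linarith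
        gcongr
  · rw [abs_sub_comm, abs_of_nonneg (by linarith)]
    calc x - y ≤ x * y := hsub
      _ ≤ (T * y) * y := by gcongr
      _ = T * y ^ 2 := by ring
      _ ≤ 24 * T ^ 4 * y ^ 2 := by
        have : T ≤ 24 * T ^ 4 := by linarith
        gcongr
  · have e : (- y ^ 2) - (- x ^ 2) = (x - y) * (x + y) := by ring
    rw [e, abs_of_nonneg (mul_nonneg (by linarith) (by linarith))]
    calc (x - y) * (x + y) ≤ (x * y) * (x + x) := by gcongr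
      _ = 2 * x ^ 2 * y := by ring
      _ ≤ 2 * (T * y) ^ 2 * y := by gcongr
      _ = 2 * T ^ 2 * y ^ 3 := by ring
      _ ≤ 24 * T ^ 4 * y ^ 3 := by
        have : T ^ 2 ≤ T ^ 4 := pow_le_pow_right₀ hT1 (by norm_num)
        have : 2 * T ^ 2 ≤ 24 * T ^ 4 := by linarith
        gcongr
  · have e : 2 * y ^ 3 - 2 * x ^ 3 = -(2 * ((x - y) * (x ^ 2 + x * y + y ^ 2))) := by ring
    have hn : 0 ≤ 2 * ((x - y) * (x ^ 2 + x * y + y ^ 2)) :=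
      mul_nonneg (by norm_num) (mul_nonneg (by linarith) (by positivity))
    rw [e, abs_neg, abs_of_nonneg hn]
    calc 2 * ((x - y) * (x ^ 2 + x * y + y ^ 2))
        ≤ 2 * ((x * y) * (x ^ 2 + x * x + x ^ 2)) := by gcongr
      _ = 6 * x ^ 3 * y := by ring
      _ ≤ 6 * (T * y) ^ 3 * y := by gcongr
      _ = 6 * T ^ 3 * y ^ 4 := by ring
      _ ≤ 24 * T ^ 4 * y ^ 4 := by
        have : T ^ 3 ≤ T ^ 4 := pow_le_pow_right₀ hT1 (by norm_num)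
        have : 6 * T ^ 3 ≤ 24 * T ^ 4 := by linarith
        gcongr
  · have e : (- 6 * y ^ 4) - (- 6 * x ^ 4)
        = 6 * ((x - y) * (x ^ 3 + x ^ 2 * y + x * y ^ 2 + y ^ 3)) := by ring
    have hn : 0 ≤ 6 * ((x - y) * (x ^ 3 + x ^ 2 * y + x * y ^ 2 + y ^ 3)) :=
      mul_nonneg (by norm_num) (mul_nonneg (by linarith) (by positivity))
    rw [e, abs_of_nonneg hn]
    calc 6 * ((x - y) * (x ^ 3 + x ^ 2 * y + x * y ^ 2 + y ^ 3))
        ≤ 6 * ((x * y) * (x ^ 3 + x ^ 2 * x + x * x ^ 2 + x ^ 3)) := by gcongr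
      _ = 24 * x ^ 4 * y := by ring
      _ ≤ 24 * (T * y) ^ 4 * y := by gcongr
      _ = 24 * T ^ 4 * y ^ 5 := by ring

theorem W_bounds {s : ℝ} (hs : 0 ≤ s) :
    |(1 + s)⁻¹| ≤ 24 * (1 + s)⁻¹ ∧ |- (1 + s)⁻¹ ^ 2| ≤ 24 * (1 + s)⁻¹ ^ 2 ∧
    |2 * (1 + s)⁻¹ ^ 3| ≤ 24 * (1 + s)⁻¹ ^ 3 ∧ |- 6 * (1 + s)⁻¹ ^ 4| ≤ 24 * (1 + s)⁻¹ ^ 4 ∧
    |24 * (1 + s)⁻¹ ^ 5| ≤ 24 * (1 + s)⁻¹ ^ 5 := by
  have h0 : 0 < (1 + s)⁻¹ := inv_pos.2 (by linarith)
  generalize (1 + s)⁻¹ = y at h0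
  have h1 := pow_pos h0 2
  have h2 := pow_pos h0 3
  have h3 := pow_pos h0 4
  have h4 := pow_pos h0 5
  refine ⟨?_, ?_, ?_, ?_, ?_⟩
  · rw [abs_of_pos h0]; linarith
  · rw [abs_neg, abs_of_pos h1]; linarith
  · rw [abs_of_pos (by linarith)]; linarith
  · rw [abs_of_neg (by linarith)]; linarith
  · rw [abs_of_pos (by linarith)]

theorem bD_succ_zero (k : ℕ) {s : ℝ} (h : |s| < 1) : bD (k + 1) s = 0 := by
  have h1 : (bump : ℝ → ℝ) =ᶠ[𝓝 s] fun _ => (1 : ℝ) := by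
    have : Metric.ball (0 : ℝ) 1 ∈ 𝓝 s := Metric.isOpen_ball.mem_nhds (by simpa using h)
    filter_upwards [this] with y hy
    exact bump.one_of_mem_closedBall (Metric.ball_subset_closedBall hy)
  unfold bD
  rw [h1.iteratedDeriv_eq, iteratedDeriv_const]
  simp

/-- The bilaplacian of a cut-off radial function, spelled out. -/
noncomputable def D2v (a0 a1 a2 a3 a4 : ℝ → ℝ) (l s : ℝ) : ℝ :=
  16 * s ^ 2 * (a4 s * H0 (s / l) + 4 * (a3 s * (l⁻¹ * H1 (s / l)))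
      + 6 * (a2 s * (l⁻¹ ^ 2 * H2 (s / l))) + 4 * (a1 s * (l⁻¹ ^ 3 * H3 (s / l)))
      + a0 s * (l⁻¹ ^ 4 * H4 (s / l)))
    + 96 * s * (a3 s * H0 (s / l) + 3 * (a2 s * (l⁻¹ * H1 (s / l)))
      + 3 * (a1 s * (l⁻¹ ^ 2 * H2 (s / l))) + a0 s * (l⁻¹ ^ 3 * H3 (s / l)))
    + 96 * (a2 s * H0 (s / l) + 2 * (a1 s * (l⁻¹ * H1 (s / l))) + a0 s * (l⁻¹ ^ 2 * H2 (s / l)))

theorem D2v_near {a0 a1 a2 a3 a4 : ℝ → ℝ} {l s : ℝ} (h : |s / l| < 1) :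
    D2v a0 a1 a2 a3 a4 l s = 16 * s ^ 2 * a4 s + 96 * s * a3 s + 96 * a2 s := by
  have h0 : H0 (s / l) = 1 := by simp [H0, b_one h.le]
  have e1 := bD_succ_zero 0 h
  have e2 := bD_succ_zero 1 h
  have e3 := bD_succ_zero 2 h
  have e4 := bD_succ_zero 3 h
  norm_num at e1 e2 e3 e4
  simp [D2v, h0, H1, H2, H3, H4, e1, e2, e3, e4]

section main

variable {u : EuclideanSpace ℝ (Fin 4) → ℝ}

/-- The right-hand side density. -/
noncomputable def rho (u : EuclideanSpace ℝ (Fin 4) → ℝ) (x : EuclideanSpace ℝ (Fin 4)) : ℝ :=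
  ‖x‖ ^ (-5 : ℝ) * u x ^ (2 : ℝ)

theorem rho_nonneg (x : EuclideanSpace ℝ (Fin 4)) : 0 ≤ rho u x := by
  unfold rho
  rw [Real.rpow_two]
  positivity

theorem rho_eq {x : EuclideanSpace ℝ (Fin 4)} (hx : x ≠ 0) :
    u x ^ 2 = rho u x * ‖x‖ ^ 5 := by
  unfold rho
  have h : 0 < ‖x‖ := norm_pos_iff.2 hx
  rw [Real.rpow_two, Real.rpow_neg h.le]
  have : ‖x‖ ^ (5 : ℝ) = ‖x‖ ^ 5 := by exact_mod_cast Real.rpow_natCast ‖x‖ 5
  rw [this]
  field_simp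

theorem phi_contDiff {δ : ℝ} (hδ : 0 < δ) {a0 a1 a2 a3 a4 : ℝ → ℝ}
    (A : Tower δ a0 a1 a2 a3 a4) :
    ContDiff ℝ (⊤ : ℕ∞) (fun x : EuclideanSpace ℝ (Fin 4) => a0 (‖x‖ ^ 2)) := by
  refine ContDiffOn.comp_contDiff A.c0 (contDiff_norm_sq ℝ) ?_
  intro x
  have := sq_nonneg ‖x‖
  show -δ < ‖x‖ ^ 2
  linarith

theorem H0_zero {l : ℝ} (hl : 1 ≤ l) {x : EuclideanSpace ℝ (Fin 4)} (hx : 2 * l < ‖x‖) :
    H0 (‖x‖ ^ 2 / l) = 0 := by
  have h1 : 2 ≤ |‖x‖ ^ 2 / l| := by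
    rw [abs_of_nonneg (by positivity), le_div_iff₀ (by linarith)]
    nlinarith
  simp [H0, b_zero h1]

theorem hcs {l : ℝ} (hl : 1 ≤ l) (a : EuclideanSpace ℝ (Fin 4) → ℝ) :
    HasCompactSupport (fun x : EuclideanSpace ℝ (Fin 4) => a x * H0 (‖x‖ ^ 2 / l)) := by
  refine HasCompactSupport.intro (isCompact_closedBall 0 (2 * l)) ?_
  intro x hx
  have : 2 * l < ‖x‖ := by simpa using hx
  simp [H0_zero hl this]

theorem test_eq (hu : IsDistributionalSolution 2 4 2 (-5) u) {δ : ℝ} (hδ : 0 < δ)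
    {a0 a1 a2 a3 a4 : ℝ → ℝ} (A : Tower δ a0 a1 a2 a3 a4) {l : ℝ} (hl : 1 ≤ l) :
    ∫ x, u x * D2v a0 a1 a2 a3 a4 l (‖x‖ ^ 2)
      = ∫ x, rho u x * (a0 (‖x‖ ^ 2) * H0 (‖x‖ ^ 2 / l)) := by
  have P := A.mul (tower_H l δ)
  have h := hu.weak _ (phi_contDiff hδ P) (hcs hl (fun x => a0 (‖x‖ ^ 2)))
  simp only [P.bilap hδ] at h
  exact h

theorem D2v_cont {δ : ℝ} (hδ : 0 < δ)
    {a0 a1 a2 a3 a4 : ℝ → ℝ} (A : Tower δ a0 a1 a2 a3 a4) (l : ℝ) :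
    Continuous (fun x : EuclideanSpace ℝ (Fin 4) => D2v a0 a1 a2 a3 a4 l (‖x‖ ^ 2)) := by
  have P := A.mul (tower_H l δ)
  have h1 : ContDiff ℝ (⊤ : ℕ∞) (polyLap 2 (fun y : EuclideanSpace ℝ (Fin 4) =>
      a0 (‖y‖ ^ 2) * H0 (‖y‖ ^ 2 / l))) := by
    simp only [polyLap, Function.iterate_succ, Function.iterate_zero, Function.comp_apply, id_eq]
    exact (Pool.Agent.V1181.contDiff_laplacian
      (Pool.Agent.V1181.contDiff_laplacian (phi_contDiff hδ P)).neg).neg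
  have e : (fun x : EuclideanSpace ℝ (Fin 4) => D2v a0 a1 a2 a3 a4 l (‖x‖ ^ 2))
      = polyLap 2 (fun y : EuclideanSpace ℝ (Fin 4) => a0 (‖y‖ ^ 2) * H0 (‖y‖ ^ 2 / l)) := by
    funext x
    rw [P.bilap hδ]
    rfl
  rw [e]
  exact h1.continuous

/-- A weight that is integrable in four dimensions. -/
theorem weight_int : Integrable (fun x : EuclideanSpace ℝ (Fin 4) =>
    ‖x‖ ^ 5 * (1 + ‖x‖ ^ 2)⁻¹ ^ 5) := by
  rw [integrable_fun_norm_addHaar (E := EuclideanSpace ℝ (Fin 4)) volume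
    (f := fun r => r ^ 5 * (1 + r ^ 2)⁻¹ ^ 5)]
  refine Integrable.mono' (integrable_inv_one_add_sq.integrableOn (s := Ioi 0)) ?_ ?_
  · refine Measurable.aestronglyMeasurable ?_
    fun_prop
  · refine (ae_restrict_mem measurableSet_Ioi).mono fun r hr => ?_
    have hr0 : (0 : ℝ) < r := hr
    simp only [finrank_euclideanSpace_fin, smul_eq_mul]
    rw [Real.norm_of_nonneg (by positivity)]
    have h1 : (1 + r ^ 2)⁻¹ ^ 4 * r ^ 8 ≤ 1 := by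
      rw [inv_pow, inv_mul_le_iff₀ (by positivity), mul_one]
      calc r ^ 8 = (r ^ 2) ^ 4 := by ring
        _ ≤ (1 + r ^ 2) ^ 4 := by
          gcongr
          linarith
    calc r ^ (4 - 1) * (r ^ 5 * (1 + r ^ 2)⁻¹ ^ 5)
        = ((1 + r ^ 2)⁻¹ ^ 4 * r ^ 8) * (1 + r ^ 2)⁻¹ := by
          generalize (1 + r ^ 2)⁻¹ = y
          norm_num
          ring
      _ ≤ 1 * (1 + r ^ 2)⁻¹ := by gcongr
      _ = (1 + r ^ 2)⁻¹ := one_mul _

/-- Another weight that is integrable in four dimensions. -/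
theorem weight_int' : Integrable (fun x : EuclideanSpace ℝ (Fin 4) =>
    ‖x‖ ^ 5 * ((‖x‖ ^ 2)⁻¹ ^ 4 * (1 + ‖x‖ ^ 2)⁻¹ ^ 3)) := by
  rw [integrable_fun_norm_addHaar (E := EuclideanSpace ℝ (Fin 4)) volume
    (f := fun r => r ^ 5 * ((r ^ 2)⁻¹ ^ 4 * (1 + r ^ 2)⁻¹ ^ 3))]
  refine Integrable.mono' (integrable_inv_one_add_sq.integrableOn (s := Ioi 0)) ?_ ?_
  · refine Measurable.aestronglyMeasurable ?_
    fun_prop
  · refine (ae_restrict_mem measurableSet_Ioi).mono fun r hr => ?_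
    have hr0 : (0 : ℝ) < r := hr
    simp only [finrank_euclideanSpace_fin, smul_eq_mul]
    rw [Real.norm_of_nonneg (by positivity)]
    have h1 : (1 + r ^ 2)⁻¹ ≤ 1 := inv_le_one_of_one_le₀ (by nlinarith)
    have h0 : 0 ≤ (1 + r ^ 2)⁻¹ := by positivity
    have h2 : r ^ (4 - 1) * (r ^ 5 * ((r ^ 2)⁻¹ ^ 4 * (1 + r ^ 2)⁻¹ ^ 3))
        = (1 + r ^ 2)⁻¹ ^ 2 * (1 + r ^ 2)⁻¹ := by
      have : r ^ (4 - 1) * (r ^ 5 * ((r ^ 2)⁻¹ ^ 4 * (1 + r ^ 2)⁻¹ ^ 3))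
          = (r ^ 8 * (r ^ 2)⁻¹ ^ 4) * ((1 + r ^ 2)⁻¹ ^ 2 * (1 + r ^ 2)⁻¹) := by
        generalize (1 + r ^ 2)⁻¹ = y
        norm_num
        ring
      rw [this]
      have h3 : r ^ 8 * (r ^ 2)⁻¹ ^ 4 = 1 := by
        field_simp
      rw [h3, one_mul]
    rw [h2]
    calc (1 + r ^ 2)⁻¹ ^ 2 * (1 + r ^ 2)⁻¹ ≤ 1 * (1 + r ^ 2)⁻¹ := by
          gcongr
          exact pow_le_one₀ h0 h1
      _ = (1 + r ^ 2)⁻¹ := one_mul _

theorem ae_ne_zero : ∀ᵐ x : EuclideanSpace ℝ (Fin 4), x ≠ 0 := by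
  rw [ae_iff]
  simp

theorem q_cont : Continuous (fun x : EuclideanSpace ℝ (Fin 4) => (1 + ‖x‖ ^ 2)⁻¹) := by
  refine Continuous.inv₀ (by fun_prop) ?_
  intro x
  positivity

theorem H0_cont (l : ℝ) : Continuous (fun x : EuclideanSpace ℝ (Fin 4) => H0 (‖x‖ ^ 2 / l)) :=
  H_contDiff0.continuous.comp (by fun_prop)

/-- The a priori bound. -/
theorem apriori (hu : IsDistributionalSolution 2 4 2 (-5) u) : ∃ I : ℝ, ∀ l : ℝ, 1 ≤ l →
    ∫ x, rho u x * ((1 + ‖x‖ ^ 2)⁻¹ * H0 (‖x‖ ^ 2 / l)) ≤ I := by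
  obtain ⟨C, hC1, hC⟩ := H_bound
  set C4 := 1408 * 24 * (81 * C) with hC4
  refine ⟨C4 ^ 2 * ∫ x : EuclideanSpace ℝ (Fin 4), ‖x‖ ^ 5 * (1 + ‖x‖ ^ 2)⁻¹ ^ 5, ?_⟩
  intro l hl
  have hint : Integrable (fun x => rho u x * ((1 + ‖x‖ ^ 2)⁻¹ * H0 (‖x‖ ^ 2 / l))) := by
    have := hu.locInt_rhs.integrable_smul_right_of_hasCompactSupport
      (g := fun x : EuclideanSpace ℝ (Fin 4) => (1 + ‖x‖ ^ 2)⁻¹ * H0 (‖x‖ ^ 2 / l))
      (q_cont.mul (H0_cont l)) (hcs hl _)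
    exact this
  have h1 := test_eq hu one_pos tower_W hl
  have h2 : ∫ x, u x * D2v (fun s => (1 + s)⁻¹) (fun s => - (1 + s)⁻¹ ^ 2)
      (fun s => 2 * (1 + s)⁻¹ ^ 3) (fun s => - 6 * (1 + s)⁻¹ ^ 4)
      (fun s => 24 * (1 + s)⁻¹ ^ 5) l (‖x‖ ^ 2)
      ≤ ∫ x, ((1 / 2) * (rho u x * ((1 + ‖x‖ ^ 2)⁻¹ * H0 (‖x‖ ^ 2 / l)))
        + (1 / 2) * (C4 ^ 2 * (‖x‖ ^ 5 * (1 + ‖x‖ ^ 2)⁻¹ ^ 5))) := by
    refine (le_abs_self _).trans ?_
    rw [← Real.norm_eq_abs]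
    refine norm_integral_le_of_norm_le ?_ ?_
    · exact (hint.const_mul _).add ((weight_int.const_mul _).const_mul _)
    · filter_upwards [ae_ne_zero] with x hx
      have hs : 0 ≤ ‖x‖ ^ 2 := sq_nonneg _
      obtain ⟨w0, w1, w2, w3, w4⟩ := W_bounds hs
      obtain ⟨k0, k1, k2, k3, k4⟩ := Hl_bound hC hC1 hl hs
      have hb := D2_bound hs rfl w0 w1 w2 w3 w4 k0 k1 k2 k3 k4
      rw [norm_mul, Real.norm_of_nonneg (hu.nonneg x), Real.norm_eq_abs]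
      have hb' : |D2v (fun s => (1 + s)⁻¹) (fun s => - (1 + s)⁻¹ ^ 2)
        (fun s => 2 * (1 + s)⁻¹ ^ 3) (fun s => - 6 * (1 + s)⁻¹ ^ 4)
        (fun s => 24 * (1 + s)⁻¹ ^ 5) l (‖x‖ ^ 2)|
        ≤ C4 * bD 0 (‖x‖ ^ 2 / l) ^ 4 * (1 + ‖x‖ ^ 2)⁻¹ ^ 3 := by
        refine hb.trans (le_of_eq ?_)
        rw [hC4]
        ring
      have hy := young (a := rho u x * ((1 + ‖x‖ ^ 2)⁻¹ * H0 (‖x‖ ^ 2 / l)))
        (b := C4 ^ 2 * (‖x‖ ^ 5 * (1 + ‖x‖ ^ 2)⁻¹ ^ 5))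
        (c := u x * (C4 * bD 0 (‖x‖ ^ 2 / l) ^ 4 * (1 + ‖x‖ ^ 2)⁻¹ ^ 3))
        (mul_nonneg (rho_nonneg x) (mul_nonneg (by positivity)
          (by unfold H0; exact pow_nonneg (b_nonneg _) 8))) (by positivity)
        (by
          have e := rho_eq (u := u) hx
          have e2 : (u x * (C4 * bD 0 (‖x‖ ^ 2 / l) ^ 4 * (1 + ‖x‖ ^ 2)⁻¹ ^ 3)) ^ 2
            = u x ^ 2 * (C4 ^ 2 * bD 0 (‖x‖ ^ 2 / l) ^ 8 * ((1 + ‖x‖ ^ 2)⁻¹ ^ 3) ^ 2) := by ring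
          rw [e2, e]
          refine le_of_eq ?_
          unfold H0
          generalize (1 + ‖x‖ ^ 2)⁻¹ = y
          ring)
      have := mul_le_mul_of_nonneg_left hb' (hu.nonneg x)
      linarith
  rw [h1, integral_add (hint.const_mul _) ((weight_int.const_mul _).const_mul _),
    integral_const_mul, integral_const_mul, integral_const_mul] at h2
  linarith

theorem rho_q_int (hu : IsDistributionalSolution 2 4 2 (-5) u) :
    Integrable (fun x => rho u x * (1 + ‖x‖ ^ 2)⁻¹) := by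
  obtain ⟨I, hI⟩ := apriori hu
  have hq1 : ∀ x : EuclideanSpace ℝ (Fin 4), (1 + ‖x‖ ^ 2)⁻¹ ≤ 1 := fun x =>
    inv_le_one_of_one_le₀ (by nlinarith [sq_nonneg ‖x‖])
  have hloc : LocallyIntegrable (fun x => rho u x * (1 + ‖x‖ ^ 2)⁻¹) := by
    intro x
    obtain ⟨U, hU, hi⟩ := hu.locInt_rhs x
    refine ⟨U, hU, ?_⟩
    refine Integrable.mono hi (hi.aestronglyMeasurable.mul q_cont.aestronglyMeasurable) ?_
    refine Filter.Eventually.of_forall fun y => ?_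
    rw [norm_mul]
    refine mul_le_of_le_one_right (norm_nonneg _) ?_
    rw [Real.norm_of_nonneg (by positivity)]
    exact hq1 y
  refine (aecover_closedBall (x := (0 : EuclideanSpace ℝ (Fin 4)))
    tendsto_natCast_atTop_atTop).integrable_of_integral_norm_bounded (ι := ℕ) (l := atTop) I
    (fun n => hloc.integrableOn_isCompact (isCompact_closedBall _ _)) ?_
  refine Filter.Eventually.of_forall fun n => ?_
  have hl : (1 : ℝ) ≤ (n : ℝ) ^ 2 + 1 := by nlinarith [sq_nonneg (n : ℝ)]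
  have hint : Integrable (fun x => rho u x * ((1 + ‖x‖ ^ 2)⁻¹ * H0 (‖x‖ ^ 2 / ((n : ℝ) ^ 2 + 1)))) := by
    have := hu.locInt_rhs.integrable_smul_right_of_hasCompactSupport
      (g := fun x : EuclideanSpace ℝ (Fin 4) => (1 + ‖x‖ ^ 2)⁻¹ * H0 (‖x‖ ^ 2 / ((n : ℝ) ^ 2 + 1)))
      (q_cont.mul (H0_cont _)) (hcs hl _)
    exact this
  calc ∫ x in Metric.closedBall (0 : EuclideanSpace ℝ (Fin 4)) n, ‖rho u x * (1 + ‖x‖ ^ 2)⁻¹‖
      = ∫ x in Metric.closedBall (0 : EuclideanSpace ℝ (Fin 4)) n,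
        rho u x * ((1 + ‖x‖ ^ 2)⁻¹ * H0 (‖x‖ ^ 2 / ((n : ℝ) ^ 2 + 1))) := by
        refine setIntegral_congr_fun measurableSet_closedBall fun x hx => ?_
        have hx' : ‖x‖ ≤ n := by simpa using hx
        have h1 : |‖x‖ ^ 2 / ((n : ℝ) ^ 2 + 1)| ≤ 1 := by
          rw [abs_of_nonneg (by positivity), div_le_one (by positivity)]
          nlinarith [norm_nonneg x]
        have h2 : H0 (‖x‖ ^ 2 / ((n : ℝ) ^ 2 + 1)) = 1 := by simp [H0, b_one h1]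
        simp only [h2, mul_one]
        exact Real.norm_of_nonneg (mul_nonneg (rho_nonneg x) (by positivity))
    _ ≤ ∫ x, rho u x * ((1 + ‖x‖ ^ 2)⁻¹ * H0 (‖x‖ ^ 2 / ((n : ℝ) ^ 2 + 1))) := by
        refine setIntegral_le_integral hint (Filter.Eventually.of_forall fun x => ?_)
        exact mul_nonneg (rho_nonneg x) (mul_nonneg (by positivity)
          (by unfold H0; exact pow_nonneg (b_nonneg _) 8))
    _ ≤ I := hI _ hl

theorem u_q3_int (hu : IsDistributionalSolution 2 4 2 (-5) u) :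
    Integrable (fun x => u x * (1 + ‖x‖ ^ 2)⁻¹ ^ 3) := by
  refine Integrable.mono' (((rho_q_int hu).add weight_int).const_mul (1 / 2))
    (hu.locInt.aestronglyMeasurable.mul (q_cont.pow 3).aestronglyMeasurable) ?_
  filter_upwards [ae_ne_zero] with x hx
  have hnn : 0 ≤ u x * (1 + ‖x‖ ^ 2)⁻¹ ^ 3 := mul_nonneg (hu.nonneg x) (by positivity)
  rw [Real.norm_of_nonneg hnn]
  have hy := young (a := rho u x * (1 + ‖x‖ ^ 2)⁻¹) (b := ‖x‖ ^ 5 * (1 + ‖x‖ ^ 2)⁻¹ ^ 5)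
    (c := u x * (1 + ‖x‖ ^ 2)⁻¹ ^ 3) (mul_nonneg (rho_nonneg x) (by positivity)) (by positivity)
    (by
      rw [mul_pow, rho_eq (u := u) hx]
      refine le_of_eq ?_
      generalize (1 + ‖x‖ ^ 2)⁻¹ = y
      ring)
  simp only [Pi.add_apply]
  linarith

theorem u_sq_int (hu : IsDistributionalSolution 2 4 2 (-5) u) :
    Integrable (fun x => u x * ((‖x‖ ^ 2)⁻¹ ^ 2 * (1 + ‖x‖ ^ 2)⁻¹ ^ 2)) := by
  refine Integrable.mono' (((rho_q_int hu).add weight_int').const_mul (1 / 2))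
    (hu.locInt.aestronglyMeasurable.mul
      (Measurable.aestronglyMeasurable (by fun_prop))) ?_
  filter_upwards [ae_ne_zero] with x hx
  have hnn : 0 ≤ u x * ((‖x‖ ^ 2)⁻¹ ^ 2 * (1 + ‖x‖ ^ 2)⁻¹ ^ 2) :=
    mul_nonneg (hu.nonneg x) (by positivity)
  rw [Real.norm_of_nonneg hnn]
  have hy := young (a := rho u x * (1 + ‖x‖ ^ 2)⁻¹)
    (b := ‖x‖ ^ 5 * ((‖x‖ ^ 2)⁻¹ ^ 4 * (1 + ‖x‖ ^ 2)⁻¹ ^ 3))
    (c := u x * ((‖x‖ ^ 2)⁻¹ ^ 2 * (1 + ‖x‖ ^ 2)⁻¹ ^ 2))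
    (mul_nonneg (rho_nonneg x) (by positivity)) (by positivity)
    (by
      rw [mul_pow, rho_eq (u := u) hx]
      refine le_of_eq ?_
      generalize (1 + ‖x‖ ^ 2)⁻¹ = y
      generalize (‖x‖ ^ 2)⁻¹ = z
      ring)
  simp only [Pi.add_apply]
  linarith

theorem t_bound {t : ℝ} (ht : 0 < t) (ht1 : t < 1) {s : ℝ} (hs : 0 < s) :
    t ^ 2 * (t + s)⁻¹ ^ 4 ≤ s⁻¹ ^ 2 * (1 + s)⁻¹ ^ 2 := by
  have h1 : t * (t + s)⁻¹ ≤ (1 + s)⁻¹ := by
    rw [← div_eq_mul_inv, div_le_iff₀ (by linarith), inv_mul_eq_div, le_div_iff₀ (by linarith)]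
    nlinarith
  have h2 : (t + s)⁻¹ ≤ s⁻¹ := inv_anti₀ hs (by linarith)
  have h3 : 0 ≤ t * (t + s)⁻¹ := by positivity
  have h4 : 0 ≤ (t + s)⁻¹ := by positivity
  calc t ^ 2 * (t + s)⁻¹ ^ 4 = (t + s)⁻¹ ^ 2 * (t * (t + s)⁻¹) ^ 2 := by ring
    _ ≤ s⁻¹ ^ 2 * (1 + s)⁻¹ ^ 2 := by gcongr

theorem key_ineq (hu : IsDistributionalSolution 2 4 2 (-5) u) {t : ℝ} (ht : 0 < t)
    (ht1 : t < 1) :
    ∫ x, u x * (1 + ‖x‖ ^ 2)⁻¹ ^ 4 ≤ ∫ x, u x * (t ^ 2 * (t + ‖x‖ ^ 2)⁻¹ ^ 4) := by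
  obtain ⟨C, hC1, hC⟩ := H_bound
  have hq1 : ∀ x : EuclideanSpace ℝ (Fin 4), (1 + ‖x‖ ^ 2)⁻¹ ≤ 1 := fun x =>
    inv_le_one_of_one_le₀ (by nlinarith [sq_nonneg ‖x‖])
  have A := (tower_log (δ := t) (t := 1) ht1.le).sub (tower_log (le_refl t))
  set D := fun (l : ℝ) (s : ℝ) => D2v (fun s => log (1 + s) - log (t + s))
    (fun s => (1 + s)⁻¹ - (t + s)⁻¹) (fun s => (- (1 + s)⁻¹ ^ 2) - (- (t + s)⁻¹ ^ 2))
    (fun s => 2 * (1 + s)⁻¹ ^ 3 - 2 * (t + s)⁻¹ ^ 3)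
    (fun s => (- 6 * (1 + s)⁻¹ ^ 4) - (- 6 * (t + s)⁻¹ ^ 4)) l s with hD
  have hnonneg : ∀ n : ℕ, 0 ≤ ∫ x, u x * D (n + 1) (‖x‖ ^ 2) := by
    intro n
    have hl : (1 : ℝ) ≤ n + 1 := by
      have : (0 : ℝ) ≤ n := Nat.cast_nonneg n
      linarith
    rw [hD]
    rw [test_eq hu ht A hl]
    refine integral_nonneg fun x => ?_
    refine mul_nonneg (rho_nonneg x) (mul_nonneg ?_
      (by unfold H0; exact pow_nonneg (b_nonneg _) 8))
    exact (log_bounds ht ht1 (sq_nonneg ‖x‖)).1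
  have hlim : Tendsto (fun n : ℕ => ∫ x, u x * D (n + 1) (‖x‖ ^ 2)) atTop
      (𝓝 (∫ x, u x * (96 * (t ^ 2 * (t + ‖x‖ ^ 2)⁻¹ ^ 4) - 96 * (1 + ‖x‖ ^ 2)⁻¹ ^ 4))) := by
    refine tendsto_integral_of_dominated_convergence
      (fun x => (1408 * (24 / t ^ 4) * (81 * C)) * (u x * (1 + ‖x‖ ^ 2)⁻¹ ^ 3)) ?_ ?_ ?_ ?_
    · intro n
      exact hu.locInt.aestronglyMeasurable.mul (D2v_cont ht A _).aestronglyMeasurable
    · exact (u_q3_int hu).const_mul _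
    · intro n
      refine Filter.Eventually.of_forall fun x => ?_
      have hl : (1 : ℝ) ≤ n + 1 := by
        have : (0 : ℝ) ≤ n := Nat.cast_nonneg n
        linarith
      have hs : 0 ≤ ‖x‖ ^ 2 := sq_nonneg _
      obtain ⟨_, w0, w1, w2, w3, w4⟩ := log_bounds ht ht1 hs
      obtain ⟨k0, k1, k2, k3, k4⟩ := Hl_bound hC hC1 hl hs
      have hb := D2_bound hs rfl w0 w1 w2 w3 w4 k0 k1 k2 k3 k4
      rw [norm_mul, Real.norm_of_nonneg (hu.nonneg x), Real.norm_eq_abs]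
      have hb' : |D (n + 1) (‖x‖ ^ 2)|
          ≤ 1408 * (24 / t ^ 4) * (81 * C) * (1 + ‖x‖ ^ 2)⁻¹ ^ 3 := by
        refine hb.trans ?_
        have hB1 : bD 0 (‖x‖ ^ 2 / (n + 1)) ^ 4 ≤ 1 := pow_le_one₀ (b_nonneg _) (b_le_one _)
        have : 81 * C * bD 0 (‖x‖ ^ 2 / (n + 1)) ^ 4 ≤ 81 * C := by nlinarith
        gcongr
      calc u x * |D (n + 1) (‖x‖ ^ 2)|
          ≤ u x * (1408 * (24 / t ^ 4) * (81 * C) * (1 + ‖x‖ ^ 2)⁻¹ ^ 3) :=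
            mul_le_mul_of_nonneg_left hb' (hu.nonneg x)
        _ = _ := by ring
    · refine Filter.Eventually.of_forall fun x => ?_
      refine tendsto_const_nhds.congr' ?_
      obtain ⟨N, hN⟩ := exists_nat_gt (‖x‖ ^ 2)
      filter_upwards [eventually_ge_atTop N] with n hn
      have hn' : (N : ℝ) ≤ n := by exact_mod_cast hn
      have h1 : |‖x‖ ^ 2 / ((n : ℝ) + 1)| < 1 := by
        rw [abs_of_nonneg (by positivity), div_lt_one (by positivity)]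
        linarith
      rw [hD]
      simp only [D2v_near h1]
      congr 1
      have hz : ‖x‖ ^ 2 * (1 + ‖x‖ ^ 2)⁻¹ = 1 - (1 + ‖x‖ ^ 2)⁻¹ := by
        have : (1 + ‖x‖ ^ 2) ≠ 0 := by positivity
        field_simp
        ring
      have hw : ‖x‖ ^ 2 * (t + ‖x‖ ^ 2)⁻¹ = 1 - t * (t + ‖x‖ ^ 2)⁻¹ := by
        have : (t + ‖x‖ ^ 2) ≠ 0 := by positivity
        field_simp
        ring
      generalize (1 + ‖x‖ ^ 2)⁻¹ = y at hz
      generalize (t + ‖x‖ ^ 2)⁻¹ = z at hw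
      generalize ‖x‖ ^ 2 = s at hz hw
      have e1 : 16 * s ^ 2 * ((- 6 * y ^ 4)) + 96 * s * (2 * y ^ 3) + 96 * (- y ^ 2)
          = - 96 * y ^ 2 * ((s * y) ^ 2 - 2 * (s * y) + 1) := by ring
      have e2 : 16 * s ^ 2 * ((- 6 * z ^ 4)) + 96 * s * (2 * z ^ 3) + 96 * (- z ^ 2)
          = - 96 * z ^ 2 * ((s * z) ^ 2 - 2 * (s * z) + 1) := by ring
      rw [hz] at e1
      rw [hw] at e2
      linear_combination e2 - e1
  have hge := ge_of_tendsto' hlim hnonneg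
  have int1 : Integrable (fun x => u x * (1 + ‖x‖ ^ 2)⁻¹ ^ 4) := by
    refine Integrable.mono' (u_q3_int hu)
      (hu.locInt.aestronglyMeasurable.mul (q_cont.pow 4).aestronglyMeasurable) ?_
    refine Filter.Eventually.of_forall fun x => ?_
    have h0 : 0 ≤ (1 + ‖x‖ ^ 2)⁻¹ := by positivity
    rw [Real.norm_of_nonneg (mul_nonneg (hu.nonneg x) (by positivity))]
    exact mul_le_mul_of_nonneg_left (pow_le_pow_of_le_one h0 (hq1 x) (by norm_num)) (hu.nonneg x)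
  have int2 : Integrable (fun x => u x * (t ^ 2 * (t + ‖x‖ ^ 2)⁻¹ ^ 4)) := by
    refine Integrable.mono' (u_sq_int hu)
      (hu.locInt.aestronglyMeasurable.mul (Measurable.aestronglyMeasurable (by fun_prop))) ?_
    filter_upwards [ae_ne_zero] with x hx
    have hs : 0 < ‖x‖ ^ 2 := by
      have := norm_pos_iff.2 hx
      positivity
    rw [Real.norm_of_nonneg (mul_nonneg (hu.nonneg x) (by positivity))]
    exact mul_le_mul_of_nonneg_left (t_bound ht ht1 hs) (hu.nonneg x)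
  have e : ∫ x, u x * (96 * (t ^ 2 * (t + ‖x‖ ^ 2)⁻¹ ^ 4) - 96 * (1 + ‖x‖ ^ 2)⁻¹ ^ 4)
      = 96 * (∫ x, u x * (t ^ 2 * (t + ‖x‖ ^ 2)⁻¹ ^ 4)) - 96 * ∫ x, u x * (1 + ‖x‖ ^ 2)⁻¹ ^ 4 := by
    rw [← integral_const_mul, ← integral_const_mul, ← integral_sub (int2.const_mul _)
      (int1.const_mul _)]
    refine integral_congr_ae (Filter.Eventually.of_forall fun x => ?_)
    simp only
    ring
  rw [e] at hge
  linarith

theorem integral_zero (hu : IsDistributionalSolution 2 4 2 (-5) u) :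
    ∫ x, u x * (1 + ‖x‖ ^ 2)⁻¹ ^ 4 ≤ 0 := by
  have hlim : Tendsto (fun n : ℕ => ∫ x, u x * (((1 : ℝ) / (n + 2)) ^ 2
      * ((1 : ℝ) / (n + 2) + ‖x‖ ^ 2)⁻¹ ^ 4)) atTop
      (𝓝 (∫ _x : EuclideanSpace ℝ (Fin 4), (0 : ℝ))) := by
    refine tendsto_integral_of_dominated_convergence
      (fun x => u x * ((‖x‖ ^ 2)⁻¹ ^ 2 * (1 + ‖x‖ ^ 2)⁻¹ ^ 2)) ?_ (u_sq_int hu) ?_ ?_
    · intro n
      exact hu.locInt.aestronglyMeasurable.mul (Measurable.aestronglyMeasurable (by fun_prop))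
    · intro n
      filter_upwards [ae_ne_zero] with x hx
      have hs : 0 < ‖x‖ ^ 2 := by
        have := norm_pos_iff.2 hx
        positivity
      have hn : (0 : ℝ) ≤ n := Nat.cast_nonneg n
      rw [Real.norm_of_nonneg (mul_nonneg (hu.nonneg x) (by positivity))]
      refine mul_le_mul_of_nonneg_left (t_bound (by positivity) ?_ hs) (hu.nonneg x)
      rw [div_lt_one (by positivity)]
      linarith
    · filter_upwards [ae_ne_zero] with x hx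
      have hs : 0 < ‖x‖ ^ 2 := by
        have := norm_pos_iff.2 hx
        positivity
      have ht : Tendsto (fun n : ℕ => (1 : ℝ) / (n + 2)) atTop (𝓝 0) := by
        have h1 : Tendsto (fun n : ℕ => (n : ℝ) + 2) atTop atTop :=
          tendsto_atTop_add_const_right _ _ tendsto_natCast_atTop_atTop
        exact h1.const_div_atTop 1
      have h2 : Tendsto (fun n : ℕ => u x * (((1 : ℝ) / (n + 2)) ^ 2
          * ((1 : ℝ) / (n + 2) + ‖x‖ ^ 2)⁻¹ ^ 4)) atTop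
          (𝓝 (u x * (0 ^ 2 * (0 + ‖x‖ ^ 2)⁻¹ ^ 4))) :=
        ((ht.pow 2).mul (((ht.add_const _).inv₀ (by simpa using hs.ne')).pow 4)).const_mul _
      simpa using h2
  rw [integral_const, smul_zero] at hlim
  refine ge_of_tendsto' hlim fun n => ?_
  have hn : (0 : ℝ) ≤ n := Nat.cast_nonneg n
  refine key_ineq hu (by positivity) ?_
  rw [div_lt_one (by positivity)]
  linarith

end main

/-- For `m = 2`, `n = 4`, `p = 2`, `σ = -5` the condition `n - 2m - θ > 0` holds and there is no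
distributional solution. -/
theorem result : ∃ (m n : ℕ) (p σ : ℝ), 2 ≤ m ∧ 1 ≤ n ∧ 1 < p ∧ σ < -2 * (m : ℝ) ∧
    0 < (n : ℝ) - 2 * m - (2 * m + σ) / (p - 1) ∧
    ¬ ∃ u : EuclideanSpace ℝ (Fin n) → ℝ, IsDistributionalSolution m n p σ u := by
  refine ⟨2, 4, 2, -5, le_refl _, by norm_num, by norm_num, by norm_num, by norm_num, ?_⟩
  rintro ⟨u, hu⟩
  have h := integral_zero hu
  have hq1 : ∀ x : EuclideanSpace ℝ (Fin 4), (1 + ‖x‖ ^ 2)⁻¹ ≤ 1 := fun x =>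
    inv_le_one_of_one_le₀ (by nlinarith [sq_nonneg ‖x‖])
  have int1 : Integrable (fun x => u x * (1 + ‖x‖ ^ 2)⁻¹ ^ 4) := by
    refine Integrable.mono' (u_q3_int hu)
      (hu.locInt.aestronglyMeasurable.mul (q_cont.pow 4).aestronglyMeasurable) ?_
    refine Filter.Eventually.of_forall fun x => ?_
    have h0 : 0 ≤ (1 + ‖x‖ ^ 2)⁻¹ := by positivity
    rw [Real.norm_of_nonneg (mul_nonneg (hu.nonneg x) (by positivity))]
    exact mul_le_mul_of_nonneg_left (pow_le_pow_of_le_one h0 (hq1 x) (by norm_num)) (hu.nonneg x)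
  have hnn : 0 ≤ fun x => u x * (1 + ‖x‖ ^ 2)⁻¹ ^ 4 := fun x =>
    mul_nonneg (hu.nonneg x) (by positivity)
  have h0 : ∫ x, u x * (1 + ‖x‖ ^ 2)⁻¹ ^ 4 = 0 := le_antisymm h (integral_nonneg hnn)
  rw [integral_eq_zero_iff_of_nonneg hnn int1] at h0
  refine hu.nontrivial ?_
  filter_upwards [h0] with x hx
  have hpos : (1 + ‖x‖ ^ 2)⁻¹ ^ 4 ≠ 0 := by positivity
  simpa using (mul_eq_zero.1 hx).resolve_right hpos

end Pool.Agent.Results.MP_643687_an.NoSolution
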